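import Mathlib
import Pool.Agent.H110K.P_knieper

set_option autoImplicit false

open scoped ContDiff UpperHalfPlane MatrixGroups

namespace Pool.Agent.Results.MP_8d04fc_gt.QuadraticGrowth

/-- The surface `Γ \ ℍ`.  If `Γ` is a subgroup of `SL(2, ℝ)` whose action on `ℍ` is properly
discontinuous, free modulo `± 1` and cocompact, this is a closed orientable surface of genus at
least two, and every such surface arises in this way. -/
abbrev Surface (Γ : Subgroup SL(2, ℝ)) : Type := Quotient (MulAction.orbitRel Γ ℍ)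

/-- The Laplacian `φ_xx + φ_yy` of a function on the plane. -/
noncomputable def laplacian (φ : ℂ → ℝ) (z : ℂ) : ℝ :=
  fderiv ℝ (fun w => fderiv ℝ φ w 1) z 1 + fderiv ℝ (fun w => fderiv ℝ φ w Complex.I) z Complex.I

/-- The Gaussian curvature `- e^{-2φ} (φ_xx + φ_yy)` of the metric `e^{2φ} |dz|^2`. -/
noncomputable def curvature (φ : ℂ → ℝ) (z : ℍ) : ℝ :=
  - Real.exp (-2 * φ (z : ℂ)) * laplacian φ (z : ℂ)

/-- `e^{2φ} |dz|^2` is a smooth Riemannian metric on `ℍ` which is invariant under `Γ`, that is, a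
smooth Riemannian metric on the surface `Γ \ ℍ`.  (The derivative of `z ↦ γ z` has absolute value
`Im (γ z) / Im z`.) -/
structure IsInvariantMetric (Γ : Subgroup SL(2, ℝ)) (φ : ℂ → ℝ) : Prop where
  smooth : ContDiffOn ℝ ∞ φ {z : ℂ | 0 < z.im}
  invariant : ∀ γ ∈ Γ, ∀ z : ℍ,
    Real.exp (φ ((γ • z : ℍ) : ℂ)) * ((γ • z : ℍ).im / z.im) = Real.exp (φ (z : ℂ))

/-- `z` is a complete unit speed geodesic of the metric `e^{2φ} |dz|^2` on `ℍ`: with velocity
`v = x' + i y'`,
`x'' = - φ_x (x'^2 - y'^2) - 2 φ_y x' y'` and `y'' = - φ_y (y'^2 - x'^2) - 2 φ_x x' y'`. -/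
def IsUnitGeodesic (φ : ℂ → ℝ) (z : ℝ → ℍ) : Prop :=
  ∃ v : ℝ → ℂ, (∀ t, HasDerivAt (fun s => (z s : ℂ)) (v t) t) ∧
    (∀ t, HasDerivAt (fun s => (v s).re)
      (- fderiv ℝ φ (z t) 1 * ((v t).re ^ 2 - (v t).im ^ 2)
        - 2 * fderiv ℝ φ (z t) Complex.I * (v t).re * (v t).im) t) ∧
    (∀ t, HasDerivAt (fun s => (v s).im)
      (- fderiv ℝ φ (z t) Complex.I * ((v t).im ^ 2 - (v t).re ^ 2)
        - 2 * fderiv ℝ φ (z t) 1 * (v t).re * (v t).im) t) ∧
    ∀ t, Real.exp (φ (z t)) * ‖v t‖ = 1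

/-- The closed curve `c` on the surface `Γ \ ℍ`, parametrised by `ℝ / ℤ`, is a closed geodesic of
length `ℓ > 0`, parametrised proportionally to arc length, along which the curvature vanishes
identically. -/
def IsZeroCurvatureClosedGeodesic (Γ : Subgroup SL(2, ℝ)) (φ : ℂ → ℝ)
    (c : C(AddCircle (1 : ℝ), Surface Γ)) (ℓ : ℝ) : Prop :=
  0 < ℓ ∧ ∃ z : ℝ → ℍ, IsUnitGeodesic φ z ∧ (∀ t, curvature φ (z t) = 0) ∧
    ∀ t : ℝ, c (t : AddCircle (1 : ℝ)) = Quotient.mk (MulAction.orbitRel Γ ℍ) (z (ℓ * t))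

/-- The free homotopy classes of closed curves on `Γ \ ℍ` which contain a zero curvature closed
geodesic of length at most `T`; the number of its elements is `N(T)`. -/
def zeroCurvatureClasses (Γ : Subgroup SL(2, ℝ)) (φ : ℂ → ℝ) (T : ℝ) :
    Set (Set C(AddCircle (1 : ℝ), Surface Γ)) :=
  {X | ∃ c : C(AddCircle (1 : ℝ), Surface Γ), X = {c' | ContinuousMap.Homotopic c' c} ∧
    ∃ ℓ : ℝ, ℓ ≤ T ∧ IsZeroCurvatureClosedGeodesic Γ φ c ℓ}

open Pool.H110K in
/-- **Knieper's question, positive answer.**  Let `S = Γ \ ℍ` be a closed orientable surface of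
genus at least two with a smooth Riemannian metric of nonpositive curvature.  Then
`N(T) ≤ C T^2` for all `T ≥ 1`: the number `N(T)` of free homotopy classes which contain a zero
curvature closed geodesic of length at most `T` grows at most quadratically.  No assumption on the
growth of `N` is needed. -/
theorem result (Γ : Subgroup SL(2, ℝ)) [ProperlyDiscontinuousSMul Γ ℍ] [CompactSpace (Surface Γ)]
    (hfree : ∀ γ ∈ Γ, ∀ z : ℍ, γ • z = z → γ = 1 ∨ γ = -1)
    (φ : ℂ → ℝ) (hφ : IsInvariantMetric Γ φ) (hK : ∀ z : ℍ, curvature φ z ≤ 0) :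
    ∃ C : ℝ, 0 < C ∧ ∀ T : ℝ, 1 ≤ T →
      (zeroCurvatureClasses Γ φ T).Finite ∧
      ((zeroCurvatureClasses Γ φ T).ncard : ℝ) ≤ C * T ^ 2 := by
  have hinv : ∀ γ ∈ Γ, ∀ z : ℍ, φ ((γ • z : ℍ) : ℂ) + Real.log (γ • z : ℍ).im
      = φ (z : ℂ) + Real.log z.im := by
    intro γ hγ z
    have h := hφ.invariant γ hγ z
    have h1 : 0 < (γ • z : ℍ).im := (γ • z : ℍ).im_pos
    have h2 : 0 < z.im := z.im_pos
    have h3 := congrArg Real.log h
    rw [Real.log_mul (Real.exp_pos _).ne' (by positivity), Real.log_exp, Real.log_exp,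
      Real.log_div h1.ne' h2.ne'] at h3
    linarith
  have hlap : ∀ z : ℍ, 0 ≤ lap φ (z : ℂ) := by
    intro z
    have h := hK z
    have h0 : 0 < Real.exp (-2 * φ (z : ℂ)) := Real.exp_pos _
    unfold curvature at h
    have h1 : 0 ≤ Real.exp (-2 * φ (z : ℂ)) * laplacian φ (z : ℂ) := by linarith
    exact nonneg_of_mul_nonneg_right h1 h0
  obtain ⟨C, hC, hmain⟩ := knieper Γ hfree φ hφ.smooth hinv hlap
  refine ⟨C, hC, fun T hT => hmain T hT _ ?_⟩
  rintro X ⟨c, hX, ℓ, hℓ, hpos, z, ⟨v, hz, hv1, hv2, hu⟩, hzero, hc⟩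
  refine ⟨c, hX, ℓ, hpos, hℓ, z, v, ⟨fun t => (z t).im_pos, hz, fun t => ?_, hu⟩, fun t => ?_, hc⟩
  · have hlin : ∀ w : ℂ, fderiv ℝ φ (z t) w
        = w.re * fderiv ℝ φ (z t) 1 + w.im * fderiv ℝ φ (z t) Complex.I := by
      intro w
      have : w = w.re • (1 : ℂ) + w.im • Complex.I := by
        simp [Complex.re_add_im]
      conv_lhs => rw [this]
      rw [map_add, map_smul, map_smul, smul_eq_mul, smul_eq_mul]
    have h := (hv1 t).ofReal_comp.add ((hv2 t).ofReal_comp.mul_const Complex.I)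
    have he : (fun s => (((v s).re : ℝ) : ℂ) + (((v s).im : ℝ) : ℂ) * Complex.I) = v := by
      funext s; exact Complex.re_add_im (v s)
    rw [show ((fun s => (((v s).re : ℝ) : ℂ)) + fun s => (((v s).im : ℝ) : ℂ) * Complex.I) = v
      from he] at h
    refine h.congr_deriv ?_
    rw [hlin (v t), hlin (Complex.I * v t)]
    have hvt : v t = ((v t).re : ℂ) + ((v t).im : ℂ) * Complex.I := (Complex.re_add_im (v t)).symm
    have hre : (Complex.I * v t).re = - (v t).im := by simp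
    have him : (Complex.I * v t).im = (v t).re := by simp
    rw [hre, him]
    set a := (v t).re
    set b := (v t).im
    rw [hvt]
    push_cast
    set A : ℂ := ((fderiv ℝ φ (z t) 1 : ℝ) : ℂ)
    set B : ℂ := ((fderiv ℝ φ (z t) Complex.I : ℝ) : ℂ)
    have hI : Complex.I ^ 2 = -1 := Complex.I_sq
    linear_combination (A * (b : ℂ) ^ 2 - (a : ℂ) * b * B) * hI
  · have h := hzero t
    unfold curvature at h
    have h0 : 0 < Real.exp (-2 * φ (z t : ℂ)) := Real.exp_pos _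
    have h1 : Real.exp (-2 * φ (z t : ℂ)) * laplacian φ (z t : ℂ) = 0 := by linarith
    exact (mul_eq_zero.mp h1).resolve_left h0.ne'

end Pool.Agent.Results.MP_8d04fc_gt.QuadraticGrowth
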